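import Mathlib

set_option autoImplicit false

namespace Pool.Agent.Lib.MP_6b2d39_agUa

/-- UA3. (the set lies in `Icc (min) (max)`) -/
theorem card_gap {S : Finset ℕ} {g X : ℕ} (hg : 1 ≤ g)
    (h : ∀ x ∈ S, ∀ y ∈ S, x < y → (y - x) * g ≤ X) : S.card ≤ X / g + 1 := by
  obtain ⟨q, hq⟩ : ∃ q, q = X / g := ⟨_, rfl⟩
  rw [← hq]
  rcases S.eq_empty_or_nonempty with rfl | hne
  · simp
  · set m := S.min' hne with hm
    have hmS : m ∈ S := S.min'_mem hne
    have hsub : S ⊆ Finset.Icc m (m + q) := by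
      intro x hx
      have h1 : m ≤ x := S.min'_le x hx
      rw [Finset.mem_Icc]
      refine ⟨h1, ?_⟩
      rcases Nat.lt_or_ge m x with h2 | h2
      · have h3 := h m hmS x hx h2
        have h4 : x - m ≤ q := by
          rw [hq]
          exact (Nat.le_div_iff_mul_le (by omega)).2 h3
        omega
      · omega
    have h5 := Finset.card_le_card hsub
    rw [Nat.card_Icc] at h5
    omega

private theorem band_ch (a : ℕ) : ∀ t : ℕ, ∀ g : ℕ, g ≤ a + 1 →
    t * g + (a + 1).choose 2 ≤ (a + t + 1).choose 2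
  | 0, g, _ => by simp
  | t + 1, g, hg => by
      have h1 := band_ch a t g hg
      have h2 : (a + (t + 1) + 1).choose 2 = (a + t + 1).choose 2 + (a + t + 1) := by
        rw [show a + (t + 1) + 1 = (a + t + 1) + 1 by omega,
          Nat.choose_succ_succ' (a + t + 1) 1, Nat.choose_one_right, Nat.add_comm]
      rw [h2, Nat.succ_mul]
      omega

private theorem band_gap {a b g : ℕ} (hab : a < b) (hg : g ≤ a + 1) :
    (b - a) * g + (a + 1).choose 2 ≤ (b + 1).choose 2 := by
  have h1 := band_ch a (b - a) g hg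
  rw [show a + (b - a) + 1 = b + 1 by omega] at h1
  exact h1

/-- UA4. The `a < a0` are at most `a0`; the others are mapped to a `d` (choice): for one `d` two such
`a < a'` have `(a' - a) a0 ≤ C(a'+1,2) - C(a+1,2) ≤ 2 w` (`card_gap`); the `d ≥ D` have
`(d' - d) D ≤ C(d'+2,2) - C(d+2,2) ≤ M (M + 1) / 2 + 2 w` (`card_gap`);
`Finset.card_le_mul_card_image` or `card_eq_sum_card_fiberwise`. -/
theorem count_a (A M D w a0 : ℕ) (hD : 1 ≤ D) (ha0 : 1 ≤ a0)
    (P : ℕ → Prop) [DecidablePred P]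
    (hP : ∀ a, P a → ∃ d, D ≤ d ∧
      |(((d + 2).choose 2 : ℕ) : ℤ) - A - (((a + 1).choose 2 : ℕ) : ℤ)| ≤ w) :
    ((Finset.range (M + 1)).filter P).card ≤
      a0 + ((M * (M + 1) / 2 + 2 * w) / D + 1) * (2 * w / a0 + 1) := by
  classical
  have hch : ∀ a, ∃ d, P a → D ≤ d ∧
      |(((d + 2).choose 2 : ℕ) : ℤ) - A - (((a + 1).choose 2 : ℕ) : ℤ)| ≤ w := by
    intro a
    by_cases ha : P a
    · obtain ⟨d, hd⟩ := hP a ha
      exact ⟨d, fun _ => hd⟩
    · exact ⟨0, fun h => absurd h ha⟩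
  choose dd hdd using hch
  set F2 := ((Finset.range (M + 1)).filter P).filter (fun a => a0 ≤ a) with hF2
  have hmem : ∀ a ∈ F2, a ≤ M ∧ P a ∧ a0 ≤ a := by
    intro a ha
    rw [hF2, Finset.mem_filter, Finset.mem_filter, Finset.mem_range] at ha
    exact ⟨by omega, ha.1.2, ha.2⟩
  have hF1 : (((Finset.range (M + 1)).filter P).filter (fun a => ¬ a0 ≤ a)).card ≤ a0 := by
    have h1 : ((Finset.range (M + 1)).filter P).filter (fun a => ¬ a0 ≤ a) ⊆
        Finset.range a0 := by
      intro a ha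
      rw [Finset.mem_filter] at ha
      rw [Finset.mem_range]
      omega
    have h2 := Finset.card_le_card h1
    rwa [Finset.card_range] at h2
  have hsplit : ((Finset.range (M + 1)).filter P).card =
      F2.card + (((Finset.range (M + 1)).filter P).filter (fun a => ¬ a0 ≤ a)).card := by
    rw [hF2]
    exact (Finset.card_filter_add_card_filter_not (fun a => a0 ≤ a)).symm
  have hfib : ∀ d ∈ F2.image dd, (F2.filter (fun a => dd a = d)).card ≤ 2 * w / a0 + 1 := by
    intro d _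
    apply card_gap ha0
    intro x hx y hy hxy
    rw [Finset.mem_filter] at hx hy
    obtain ⟨_, hPx, hax⟩ := hmem x hx.1
    obtain ⟨_, hPy, _⟩ := hmem y hy.1
    have h1 := (hdd x hPx).2
    have h2 := (hdd y hPy).2
    rw [hx.2] at h1
    rw [hy.2] at h2
    rw [abs_le] at h1 h2
    have h3 := band_gap hxy (show a0 ≤ x + 1 by omega)
    omega
  have himg : (F2.image dd).card ≤ (M * (M + 1) / 2 + 2 * w) / D + 1 := by
    apply card_gap hD
    intro x hx y hy hxy
    rw [Finset.mem_image] at hx hy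
    obtain ⟨a, ha, rfl⟩ := hx
    obtain ⟨b, hb, rfl⟩ := hy
    obtain ⟨_, hPa, _⟩ := hmem a ha
    obtain ⟨hbM, hPb, _⟩ := hmem b hb
    obtain ⟨hDa, h1⟩ := hdd a hPa
    have h2 := (hdd b hPb).2
    rw [abs_le] at h1 h2
    have h3 := band_gap (a := dd a + 1) (b := dd b + 1) (g := D) (by omega) (by omega)
    rw [show dd b + 1 - (dd a + 1) = dd b - dd a by omega] at h3
    have h4 : (b + 1).choose 2 ≤ (M + 1).choose 2 := Nat.choose_le_choose 2 (by omega)
    have h5 : (M + 1).choose 2 = M * (M + 1) / 2 := by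
      rw [Nat.choose_two_right, Nat.add_sub_cancel, Nat.mul_comm]
    rw [h5] at h4
    have h6 : dd a + 1 + 1 = dd a + 2 := by omega
    have h7 : dd b + 1 + 1 = dd b + 2 := by omega
    rw [h6, h7] at h3
    omega
  have hcard := Finset.card_le_mul_card_image F2 (2 * w / a0 + 1) hfib
  have h8 : (2 * w / a0 + 1) * (F2.image dd).card ≤
      (2 * w / a0 + 1) * ((M * (M + 1) / 2 + 2 * w) / D + 1) := Nat.mul_le_mul_left _ himg
  have h9 : (2 * w / a0 + 1) * ((M * (M + 1) / 2 + 2 * w) / D + 1) =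
      ((M * (M + 1) / 2 + 2 * w) / D + 1) * (2 * w / a0 + 1) := Nat.mul_comm _ _
  omega

end Pool.Agent.Lib.MP_6b2d39_agUa
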