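import Mathlib

set_option autoImplicit false

namespace Pool.Agent.Lib.MP_6b2d39_agUa

/-- UA5. (`Fin.consEquiv` or `Finset.card_le_mul_card_image` for `μ ↦ Fin.tail μ`) -/
theorem card_fiber {n M c : ℕ} (P : (Fin (n + 1) → Fin (M + 1)) → Prop) [DecidablePred P]
    (h : ∀ ν : Fin n → Fin (M + 1),
      (Finset.univ.filter fun a : Fin (M + 1) => P (Fin.cons a ν)).card ≤ c) :
    (Finset.univ.filter P).card ≤ c * (M + 1) ^ n := by
  classical
  have h1 : (Finset.univ.filter P).card ≤
      c * (Finset.univ : Finset (Fin n → Fin (M + 1))).card := by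
    refine Finset.card_le_mul_card_image_of_maps_to
      (f := fun μ : Fin (n + 1) → Fin (M + 1) => Fin.tail μ) (fun μ _ => Finset.mem_univ _) c ?_
    intro ν _
    refine le_trans ?_ (h ν)
    refine Finset.card_le_card_of_injOn (fun μ => μ 0) ?_ ?_
    · intro μ hμ
      simp only [Finset.coe_filter, Finset.mem_filter, Finset.mem_univ, true_and,
        Set.mem_ofPred_eq] at hμ ⊢
      have h2 : (Fin.cons (μ 0) ν : Fin (n + 1) → Fin (M + 1)) = μ := by
        rw [← hμ.2]
        exact Fin.cons_self_tail μ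
      rw [h2]
      exact hμ.1
    · intro μ hμ μ' hμ' he
      simp only [Finset.coe_filter, Finset.mem_filter, Finset.mem_univ, true_and,
        Set.mem_ofPred_eq] at hμ hμ'
      rw [← Fin.cons_self_tail μ, ← Fin.cons_self_tail μ', hμ.2, hμ'.2]
      simp only at he
      rw [he]
  simpa using h1

/-- UA6. the vectors of natural numbers `≤ M` as functions to `Fin (M + 1)` -/
theorem ncard_le {n M : ℕ} (P : (Fin n → ℕ) → Prop)
    [DecidablePred fun μ : Fin n → Fin (M + 1) => P fun i => (μ i : ℕ)] :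
    {μ : Fin n → ℕ | (∀ i, μ i ≤ M) ∧ P μ}.ncard ≤
      (Finset.univ.filter fun μ : Fin n → Fin (M + 1) => P fun i => (μ i : ℕ)).card := by
  classical
  have h1 : {μ : Fin n → ℕ | (∀ i, μ i ≤ M) ∧ P μ} ⊆
      ((fun (μ : Fin n → Fin (M + 1)) (i : Fin n) => (μ i : ℕ)) ''
        ((Finset.univ.filter fun μ : Fin n → Fin (M + 1) => P fun i => (μ i : ℕ) :
          Finset (Fin n → Fin (M + 1))) : Set (Fin n → Fin (M + 1)))) := by
    intro μ hμ
    refine ⟨fun i => ⟨μ i, Nat.lt_succ_of_le (hμ.1 i)⟩, ?_, ?_⟩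
    · simp only [Finset.coe_filter, Finset.mem_univ, true_and, Set.mem_ofPred_eq]
      exact hμ.2
    · rfl
  refine le_trans (Set.ncard_le_ncard h1 (Set.Finite.image _ (Finset.finite_toSet _))) ?_
  refine le_trans (Set.ncard_image_le (Finset.finite_toSet _)) ?_
  rw [Set.ncard_coe_finset]

end Pool.Agent.Lib.MP_6b2d39_agUa
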