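import Mathlib

set_option autoImplicit false

namespace Pool.Agent.Lib.MP_6b2d39_agUa

/-- real core of UA8 -/
private theorem num_a_core (a s t l C1 r D w x a0 : ℝ) (ha : 1 ≤ a) (hs : 1 ≤ s) (ht : 1 ≤ t)
    (hl : 1 ≤ l) (hC1 : 1 ≤ C1) (hsa : s ≤ 256 * √a)
    (hr : r = (t / s + a / s ^ 5) * l ^ 5) (hrC : 600 * C1 * r ≤ 1)
    (hD : a * s / 16 ≤ D) (hD' : D < a * s / 16 + 1)
    (hw : w ≤ C1 * (a * t + a ^ 2 / s ^ 4) * l ^ 3 + 1) (hw1 : 1 ≤ w)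
    (hx : x = √(w * a ^ 2 / D)) (h0 : x ≤ a0) (h0' : a0 < x + 1) :
    a0 + ((a ^ 2 + 2 * w) / D + 1) * (2 * w / a0 + 1) ≤ 600 * C1 * √r * (a + 1) := by
  have hs0 : 0 < s := by linarith
  have ha0 : 0 < a := by linarith
  have hl0 : 0 < l := by linarith
  have hr0 : 0 < r := by rw [hr]; positivity
  have hD0 : 0 < D := lt_of_lt_of_le (by positivity) hD
  have hw0 : 0 < w := by linarith
  -- the window
  have hid : a * s * (t / s + a / s ^ 5) = a * t + a ^ 2 / s ^ 4 := by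
    field_simp
  have hl35 : l ^ 3 ≤ l ^ 5 := pow_le_pow_right₀ hl (by norm_num)
  have hWr1 : 1 ≤ C1 * (a * t + a ^ 2 / s ^ 4) * l ^ 3 := by
    have h1 : 1 ≤ a * t := by nlinarith
    have h2 : 0 ≤ a ^ 2 / s ^ 4 := by positivity
    have h3 : 1 ≤ l ^ 3 := one_le_pow₀ hl
    have h4 : 1 ≤ C1 * (a * t + a ^ 2 / s ^ 4) := by nlinarith
    nlinarith
  have hWr : C1 * (a * t + a ^ 2 / s ^ 4) * l ^ 3 ≤ C1 * (a * s) * r := by
    rw [hr, ← hid]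
    have h1 : 0 ≤ C1 * (a * s * (t / s + a / s ^ 5)) := by positivity
    calc C1 * (a * s * (t / s + a / s ^ 5)) * l ^ 3
        ≤ C1 * (a * s * (t / s + a / s ^ 5)) * l ^ 5 := mul_le_mul_of_nonneg_left hl35 h1
      _ = C1 * (a * s) * ((t / s + a / s ^ 5) * l ^ 5) := by ring
  have hw2 : w ≤ 2 * C1 * (a * s) * r := by linarith
  -- sizes
  have hsq : √a ^ 2 = a := Real.sq_sqrt ha0.le
  have hsa1 : 1 ≤ √a := Real.one_le_sqrt.mpr ha
  have hsa2 : √a ≤ a := by nlinarith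
  have has : a * s ≤ 256 * a ^ 2 := by
    have : s ≤ 256 * a := by linarith
    nlinarith
  have hwa : w ≤ a ^ 2 := by
    have h1 : C1 * r ≤ 1 / 600 := by linarith
    have h2 : 2 * C1 * (a * s) * r = 2 * (a * s) * (C1 * r) := by ring
    have h3 : 2 * (a * s) * (C1 * r) ≤ 2 * (a * s) * (1 / 600) :=
      mul_le_mul_of_nonneg_left h1 (by positivity)
    nlinarith
  have hDa : D ≤ 17 * a ^ 2 := by nlinarith
  have hQ : (a ^ 2 + 2 * w) / D + 1 ≤ 20 * a ^ 2 / D := by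
    rw [div_add_one hD0.ne']
    gcongr
    linarith
  have hx0 : 0 < x := by rw [hx]; positivity
  have ha00 : 0 < a0 := by linarith
  have hxx : x ^ 2 = w * a ^ 2 / D := by
    rw [hx]; exact Real.sq_sqrt (by positivity)
  have h2w : 2 * w / a0 ≤ 2 * w / x := by gcongr
  have hprod : ((a ^ 2 + 2 * w) / D + 1) * (2 * w / a0 + 1) ≤ 40 * x + 20 * a ^ 2 / D := by
    calc ((a ^ 2 + 2 * w) / D + 1) * (2 * w / a0 + 1)
        ≤ (20 * a ^ 2 / D) * (2 * w / x + 1) := by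
          apply mul_le_mul hQ (by linarith) (by positivity) (by positivity)
      _ = 40 * (w * a ^ 2 / D) / x + 20 * a ^ 2 / D := by
          field_simp
          ring
      _ = 40 * x + 20 * a ^ 2 / D := by
          rw [← hxx]
          field_simp
  -- the three terms
  have hsr0 : 0 < √r := Real.sqrt_pos.mpr hr0
  have hrs : √r ^ 2 = r := Real.sq_sqrt hr0.le
  have hx1 : x ≤ 6 * C1 * a * √r := by
    have h1 : x ^ 2 ≤ (6 * C1 * a * √r) ^ 2 := by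
      rw [hxx, div_le_iff₀ hD0]
      have h2 : (6 * C1 * a * √r) ^ 2 = 36 * C1 ^ 2 * a ^ 2 * r := by
        rw [mul_pow, hrs]; ring
      rw [h2]
      have h3 : 36 * C1 ^ 2 * a ^ 2 * r * (a * s / 16) ≤ 36 * C1 ^ 2 * a ^ 2 * r * D :=
        mul_le_mul_of_nonneg_left hD (by positivity)
      have h4 : w * a ^ 2 ≤ 2 * C1 * (a * s) * r * a ^ 2 :=
        mul_le_mul_of_nonneg_right hw2 (by positivity)
      have h5 : 2 * C1 * (a * s) * r * a ^ 2 ≤ 36 * C1 ^ 2 * a ^ 2 * r * (a * s / 16) := by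
        have h6 : 36 * C1 ^ 2 * a ^ 2 * r * (a * s / 16) - 2 * C1 * (a * s) * r * a ^ 2
          = (C1 * (a * s) * r * a ^ 2) * (36 / 16 * C1 - 2) := by ring
        have h7 : 0 ≤ (C1 * (a * s) * r * a ^ 2) * (36 / 16 * C1 - 2) := by
          apply mul_nonneg (by positivity)
          linarith
        linarith
      linarith
    exact le_of_sq_le_sq h1 (by positivity)
  have hl5 : 1 ≤ l ^ 5 := one_le_pow₀ hl
  have hrs1 : 1 / s ≤ r := by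
    rw [hr]
    have h1 : 1 / s ≤ t / s := by gcongr
    have h2 : 0 ≤ a / s ^ 5 := by positivity
    have h3 : 0 ≤ t / s + a / s ^ 5 := by positivity
    nlinarith
  have hone : 1 ≤ 16 * (a * √r) := by
    have h1 : (1 : ℝ) ^ 2 ≤ (16 * (a * √r)) ^ 2 := by
      have h2 : (16 * (a * √r)) ^ 2 = 256 * a ^ 2 * r := by
        rw [mul_pow, mul_pow, hrs]; ring
      rw [h2]
      have h3 : 256 * a ^ 2 * (1 / s) ≤ 256 * a ^ 2 * r :=
        mul_le_mul_of_nonneg_left hrs1 (by positivity)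
      have h4 : 1 ≤ 256 * a ^ 2 * (1 / s) := by
        rw [mul_one_div, le_div_iff₀ hs0]
        nlinarith
      linarith
    exact le_of_sq_le_sq h1 (by positivity)
  have hD2 : a ^ 2 / D ≤ 16 * (a * √r) := by
    have h1 : 1 / s ≤ √r := by
      apply Real.le_sqrt_of_sq_le
      have h2 : (1 / s) ^ 2 ≤ 1 / s := by
        rw [div_pow, one_pow]
        apply one_div_le_one_div_of_le hs0
        nlinarith
      linarith
    have h3 : a ^ 2 / D ≤ a ^ 2 / (a * s / 16) := by gcongr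
    have h4 : a ^ 2 / (a * s / 16) = 16 * (a * (1 / s)) := by
      field_simp
    rw [h4] at h3
    have h5 : 16 * (a * (1 / s)) ≤ 16 * (a * √r) := by gcongr
    linarith
  have hfin : a0 + ((a ^ 2 + 2 * w) / D + 1) * (2 * w / a0 + 1) ≤
      41 * (6 * C1 * a * √r) + 16 * (a * √r) + 20 * (16 * (a * √r)) := by
    have h1 : 20 * a ^ 2 / D = 20 * (a ^ 2 / D) := by ring
    rw [h1] at hprod
    linarith
  have hq : 0 ≤ a * √r := by positivity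
  have hq2 : 0 ≤ C1 * √r := by positivity
  nlinarith [mul_le_mul_of_nonneg_right hC1 hq]

/-- UA8 (numbers). `r = (M^(1/8)/√n + M/n^(5/2)) ℓ^5`, `ℓ = log (M + 2) ≥ 1`, `Wr` the real window. Take
`D = ⌈M √n / 16⌉`, `w = ⌈Wr⌉`, `x = √(w M^2 / D)`, `a0 = ⌈x⌉`. `n ≤ 65536 M` and `C r ≤ 1` with `C`
large make `M` large (`M^(1/8)/√n ≥ M^(-3/8)/256`), `w ≤ M^2`, `D ≤ M^2`; the count is at most
`x + 1 + (4 M^2/D) (2 w/x + 1) = 9 x + 1 + 4 M^2 / D`, divided by `M + 1`: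
`9 √(w/D) + 1/M + 4 M/D ≤ (9 √(32 * 65536 C1) + 65536 + 64) √r`, as `w/D ≤ 32 Wr/(M √n)`,
`1/M ≤ 65536/n`, `n^(-1/4) ≤ √r`. -/
theorem num_a (C1 : ℝ) (hC1 : 1 ≤ C1) : ∃ C : ℝ, 1 ≤ C ∧ ∀ n M : ℕ, 1 ≤ n → 1 ≤ M →
    C * (((M : ℝ) ^ (1 / 8 : ℝ) / √(n : ℝ) + M / (n : ℝ) ^ (5 / 2 : ℝ)) *
      Real.log (M + 2) ^ 5) ≤ 1 → n ≤ 65536 * M →
    ∃ D w a0 : ℕ, 1 ≤ D ∧ 1 ≤ a0 ∧ (D : ℝ) < M * √(n : ℝ) / 16 + 1 ∧
      C1 * ((M : ℝ) ^ (9 / 8 : ℝ) + (M : ℝ) ^ 2 / (n : ℝ) ^ 2) * Real.log (M + 2) ^ 3 ≤ w ∧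
      ((a0 + ((M * (M + 1) / 2 + 2 * w) / D + 1) * (2 * w / a0 + 1) : ℕ) : ℝ) ≤
        C * √(((M : ℝ) ^ (1 / 8 : ℝ) / √(n : ℝ) + M / (n : ℝ) ^ (5 / 2 : ℝ)) *
          Real.log (M + 2) ^ 5) * (M + 1) := by
  refine ⟨600 * C1, by linarith, ?_⟩
  intro n M hn hM hrC hnM
  have hn1 : (1 : ℝ) ≤ n := by exact_mod_cast hn
  have ha : (1 : ℝ) ≤ M := by exact_mod_cast hM
  have ha0 : (0 : ℝ) < M := by linarith
  have hn0 : (0 : ℝ) < n := by linarith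
  have hs : (1 : ℝ) ≤ √(n : ℝ) := Real.one_le_sqrt.mpr hn1
  have hs0 : (0 : ℝ) < √(n : ℝ) := by linarith
  have hs2 : √(n : ℝ) ^ 2 = n := Real.sq_sqrt hn0.le
  have ht : (1 : ℝ) ≤ (M : ℝ) ^ (1 / 8 : ℝ) := Real.one_le_rpow ha (by norm_num)
  have hl : (1 : ℝ) ≤ Real.log (M + 2) := by
    rw [Real.le_log_iff_exp_le (by linarith)]
    have := Real.exp_one_lt_d9
    linarith
  have hsa : √(n : ℝ) ≤ 256 * √(M : ℝ) := by
    have h1 : (n : ℝ) ≤ 65536 * M := by exact_mod_cast hnM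
    have h2 : √(65536 * (M : ℝ)) = 256 * √(M : ℝ) := by
      rw [show (65536 : ℝ) * M = 256 ^ 2 * M by norm_num, Real.sqrt_mul (by positivity),
        Real.sqrt_sq (by norm_num)]
    rw [← h2]
    exact Real.sqrt_le_sqrt h1
  have h52 : (n : ℝ) ^ (5 / 2 : ℝ) = √(n : ℝ) ^ 5 := by
    rw [Real.sqrt_eq_rpow, ← Real.rpow_natCast, ← Real.rpow_mul hn0.le]
    norm_num
  have hn2 : (n : ℝ) ^ 2 = √(n : ℝ) ^ 4 := by
    rw [show √(n : ℝ) ^ 4 = (√(n : ℝ) ^ 2) ^ 2 by ring, hs2]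
  have h98 : (M : ℝ) ^ (9 / 8 : ℝ) = M * (M : ℝ) ^ (1 / 8 : ℝ) := by
    rw [show (9 / 8 : ℝ) = 1 + 1 / 8 by norm_num, Real.rpow_add ha0, Real.rpow_one]
  rw [h52] at hrC ⊢
  rw [h98, hn2]
  set s : ℝ := √(n : ℝ) with hsdef
  set t : ℝ := (M : ℝ) ^ (1 / 8 : ℝ) with htdef
  set l : ℝ := Real.log (M + 2) with hldef
  have hl0 : 0 < l := by linarith
  have ht0 : 0 < t := by linarith
  set r : ℝ := (t / s + M / s ^ 5) * l ^ 5 with hrdef
  set W : ℝ := C1 * (M * t + (M : ℝ) ^ 2 / s ^ 4) * l ^ 3 with hWdef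
  have hW1 : 1 ≤ W := by
    have h1 : 1 ≤ (M : ℝ) * t := by nlinarith
    have h2 : 0 ≤ (M : ℝ) ^ 2 / s ^ 4 := by positivity
    have h3 : 1 ≤ l ^ 3 := one_le_pow₀ hl
    have h4 : 1 ≤ C1 * (M * t + (M : ℝ) ^ 2 / s ^ 4) := by nlinarith
    nlinarith
  set w : ℕ := ⌈W⌉₊ with hwdef
  have hwW : W ≤ w := Nat.le_ceil W
  have hw' : (w : ℝ) < W + 1 := Nat.ceil_lt_add_one (by linarith)
  set D : ℕ := ⌈(M : ℝ) * s / 16⌉₊ with hDdef
  have hD : (M : ℝ) * s / 16 ≤ D := Nat.le_ceil _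
  have hD' : (D : ℝ) < M * s / 16 + 1 := Nat.ceil_lt_add_one (by positivity)
  have hD1 : 1 ≤ D := Nat.ceil_pos.mpr (by positivity)
  have hD0 : (0 : ℝ) < D := by exact_mod_cast hD1
  have hw0 : (0 : ℝ) < w := by linarith
  set x : ℝ := √((w : ℝ) * (M : ℝ) ^ 2 / D) with hxdef
  have hx0 : 0 < x := by rw [hxdef]; positivity
  set a0 : ℕ := ⌈x⌉₊ with ha0def
  have h0 : x ≤ a0 := Nat.le_ceil _
  have h0' : (a0 : ℝ) < x + 1 := Nat.ceil_lt_add_one hx0.le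
  have ha01 : 1 ≤ a0 := Nat.ceil_pos.mpr hx0
  have hcore := num_a_core M s t l C1 r D w x a0 ha hs ht hl hC1 hsa hrdef hrC hD hD' hw'.le
    (by linarith) hxdef h0 h0'
  refine ⟨D, w, a0, hD1, ha01, hD', hwW, ?_⟩
  refine le_trans ?_ hcore
  push_cast
  have e1 : (((M * (M + 1) / 2 + 2 * w) / D : ℕ) : ℝ) ≤ ((M : ℝ) ^ 2 + 2 * w) / D := by
    refine le_trans Nat.cast_div_le ?_
    gcongr
    push_cast
    have h1 : ((M * (M + 1) / 2 : ℕ) : ℝ) ≤ (M : ℝ) * (M + 1) / 2 := by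
      refine le_trans Nat.cast_div_le ?_
      push_cast
      exact le_rfl
    nlinarith
  have e2 : ((2 * w / a0 : ℕ) : ℝ) ≤ 2 * w / a0 := by
    refine le_trans Nat.cast_div_le ?_
    push_cast
    exact le_rfl
  have e3 : (0 : ℝ) ≤ ((2 * w / a0 : ℕ) : ℝ) := Nat.cast_nonneg _
  have e4 : (0 : ℝ) ≤ (((M * (M + 1) / 2 + 2 * w) / D : ℕ) : ℝ) := Nat.cast_nonneg _
  have e5 : ((((M * (M + 1) / 2 + 2 * w) / D : ℕ) : ℝ) + 1) * (((2 * w / a0 : ℕ) : ℝ) + 1) ≤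
      (((M : ℝ) ^ 2 + 2 * w) / D + 1) * (2 * w / a0 + 1) := by
    apply mul_le_mul (by linarith) (by linarith) (by linarith) (by linarith)
  linarith

end Pool.Agent.Lib.MP_6b2d39_agUa
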