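import Pool.Agent.Lib.MP_6b2d39_agUn.MainU
import Pool.Agent.Lib.MP_6b2d39_agUn.DegMono

set_option autoImplicit false

namespace Pool.Agent.Lib.MP_6b2d39_agUa

open Pool.Agent.Lib.MP_6b2d39_agUn Pool.Agent.Lib.MP_6b2d39_agCr

private theorem sd_vd_le {n d e : ℕ} (h : d ≤ e) (μ : Fin n → ℕ) : vd d μ ≤ vd e μ := by
  unfold vd
  have h1 : (d + 2).choose 2 ≤ (e + 2).choose 2 := Nat.choose_le_choose 2 (by omega)
  have h2 : (((d + 2).choose 2 : ℕ) : ℤ) ≤ (((e + 2).choose 2 : ℕ) : ℤ) := by exact_mod_cast h1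
  linarith

private theorem sd_two_vd {n e : ℕ} (μ : Fin n → ℕ) :
    2 * ((vd e μ : ℤ) : ℝ) ≤ ((e : ℝ) + 2) ^ 2 - ∑ i, (μ i : ℝ) ^ 2 := by
  unfold vd
  push_cast
  rw [Nat.cast_choose_two]
  have h1 : ∀ i : Fin n, ((μ i : ℝ) ^ 2) ≤ 2 * (((μ i + 1).choose 2 : ℕ) : ℝ) := by
    intro i
    rw [Nat.cast_choose_two]
    push_cast
    have h0 : (0 : ℝ) ≤ μ i := Nat.cast_nonneg _
    nlinarith
  have h2 : ∑ i, ((μ i : ℝ) ^ 2) ≤ 2 * ∑ i, (((μ i + 1).choose 2 : ℕ) : ℝ) := by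
    rw [Finset.mul_sum]
    exact Finset.sum_le_sum fun i _ => h1 i
  push_cast
  have h0 : (0 : ℝ) ≤ e := Nat.cast_nonneg _
  nlinarith

/-- Cauchy - Schwarz -/
private theorem sd_cs {n M : ℕ} (μ : Fin n → ℕ) (hn : 1 ≤ n) (h : n * M ≤ 4 * ∑ i, μ i) :
    (n : ℝ) * (M : ℝ) ^ 2 / 16 ≤ ∑ i, (μ i : ℝ) ^ 2 := by
  have h1 : (∑ i, (μ i : ℝ)) ^ 2 ≤ (n : ℝ) * ∑ i, (μ i : ℝ) ^ 2 := by
    have := sq_sum_le_card_mul_sum_sq (s := (Finset.univ : Finset (Fin n)))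
      (f := fun i => (μ i : ℝ))
    simpa using this
  have h2 : (n : ℝ) * M ≤ 4 * ∑ i, (μ i : ℝ) := by exact_mod_cast h
  have hn0 : (0 : ℝ) < n := by exact_mod_cast hn
  have hM0 : (0 : ℝ) ≤ M := Nat.cast_nonneg _
  have h3 : ((n : ℝ) * M) ^ 2 ≤ (4 * ∑ i, (μ i : ℝ)) ^ 2 :=
    pow_le_pow_left₀ (by positivity) h2 2
  have h4 : (n : ℝ) * ((n : ℝ) * (M : ℝ) ^ 2 / 16) ≤ (n : ℝ) * ∑ i, (μ i : ℝ) ^ 2 := by
    nlinarith
  exact le_of_mul_le_mul_left h4 hn0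

/-- the second summand of the window of `main_u` in a degree `≥ M √n / 16` -/
private theorem sd_win {M : ℝ} {n : ℝ} {d : ℝ} (hM : 1 ≤ M) (hn : 1 ≤ n)
    (hd : M * √n ≤ 16 * (d + 1)) : M ^ 6 / (d + 1) ^ 4 ≤ 65536 * (M ^ 2 / n ^ 2) := by
  have hM0 : 0 < M := by linarith
  have hn0 : 0 < n := by linarith
  have hs : 0 < √n := Real.sqrt_pos.2 hn0
  have hss : √n ^ 2 = n := Real.sq_sqrt hn0.le
  have hd0 : 0 < d + 1 := by
    have : 0 < M * √n := by positivity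
    linarith
  have h1 : (M * √n) ^ 4 ≤ (16 * (d + 1)) ^ 4 := pow_le_pow_left₀ (by positivity) hd 4
  have h2 : (M * √n) ^ 4 = M ^ 4 * n ^ 2 := by
    rw [mul_pow, show √n ^ 4 = (√n ^ 2) ^ 2 by ring, hss]
  have h3 : (16 * (d + 1)) ^ 4 = 65536 * (d + 1) ^ 4 := by ring
  rw [h2, h3] at h1
  rw [div_le_iff₀ (by positivity)]
  have h4 : 65536 * (M ^ 2 / n ^ 2) * (d + 1) ^ 4 = (M ^ 2 / n ^ 2) * (65536 * (d + 1) ^ 4) := by
    ring
  rw [h4]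
  have h5 : M ^ 6 = (M ^ 2 / n ^ 2) * (M ^ 4 * n ^ 2) := by
    field_simp
  calc M ^ 6 = (M ^ 2 / n ^ 2) * (M ^ 4 * n ^ 2) := h5
    _ ≤ _ := mul_le_mul_of_nonneg_left h1 (by positivity)

/-- UA7 (special degrees of a vector with large sum). `C0` the constant of `main_u`,
`ℓ = log (M + 2) ≥ 1`. `n M ≤ 4 ∑ μ i` gives `∑ μ i ^ 2 ≥ n M^2 / 16` (Cauchy - Schwarz). Third
claim: `exact_u`. Let `D = ⌈M √n / 16⌉` (the hypothesis gives `n ≥ C^2`, so `M √n ≥ 100`): then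
`(D + 2)^2 ≤ n M^2 / 64`, `vd D μ ≤ - n M^2 / 64`, and `M^6 / (D + 1)^4 ≤ 65536 M^2 / n^2`, so the window
of `main_u` in the degree `D` is at most `C0 (M^(9/8) + 65536 M^2 / n^2) ℓ^3 ≤ n M^2 / 64` (the
hypothesis gives `n ≥ C^2 M^(1/4) ℓ^10`): `curves D μ P = 0` for general `P`. For `d < D`:
`deg_mono`, `vd d μ ≤ vd D μ < 0`, so `d` is not special. So a special `d` is `≥ D`, and
`main_u` in the degree `d` gives the second claim (`M^6 / (d + 1)^4 ≤ 65536 M^2 / n^2`). -/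
theorem spec_d : ∃ C : ℝ, 1 ≤ C ∧ ∀ (n M : ℕ) (μ : Fin n → ℕ), 1 ≤ n → 1 ≤ M → (∀ i, μ i ≤ M) →
    n * M ≤ 4 * ∑ i, μ i →
    C * (((M : ℝ) ^ (1 / 8 : ℝ) / √(n : ℝ) + M / (n : ℝ) ^ (5 / 2 : ℝ)) *
      Real.log (M + 2) ^ 5) ≤ 1 →
    ∀ d : ℕ, ¬ General (fun P => (Module.finrank ℂ (curves d μ P) : ℤ) = max (vd d μ) 0) →
    (M : ℝ) * √(n : ℝ) ≤ 16 * d ∧
      |((vd d μ : ℤ) : ℝ)| < C * ((M : ℝ) ^ (9 / 8 : ℝ) + (M : ℝ) ^ 2 / (n : ℝ) ^ 2) *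
        Real.log (M + 2) ^ 3 ∧
      (d : ℝ) + 1 < 16 * M * √(M : ℝ) := by
  obtain ⟨C0, hC0, h0⟩ := main_u
  refine ⟨8388608 * C0, by linarith, fun n M μ hn hM hμ hsum hhyp d hsp => ?_⟩
  have hm : (1 : ℝ) ≤ M := by exact_mod_cast hM
  have hm0 : (0 : ℝ) < M := by linarith
  have hn1 : (1 : ℝ) ≤ n := by exact_mod_cast hn
  have hn0 : (0 : ℝ) < n := by linarith
  have hs0 : 0 < √(n : ℝ) := Real.sqrt_pos.2 hn0
  have hss : √(n : ℝ) ^ 2 = n := Real.sq_sqrt hn0.le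
  set l := Real.log ((M : ℝ) + 2) with hldef
  have hl3 : Real.log 3 ≤ l := Real.log_le_log (by norm_num) (by linarith)
  have hlog3 : 1 < Real.log 3 := by
    rw [Real.lt_log_iff_exp_lt (by norm_num)]
    exact lt_trans Real.exp_one_lt_d9 (by norm_num)
  have hl : 1 ≤ l := by linarith
  have hl30 : 1 ≤ l ^ 3 := one_le_pow₀ hl
  have hl5 : l ^ 3 ≤ l ^ 5 := pow_le_pow_right₀ hl (by norm_num)
  set a := (M : ℝ) ^ (1 / 8 : ℝ) with hadef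
  set w := (M : ℝ) ^ (9 / 8 : ℝ) with hwdef
  have ha : 1 ≤ a := Real.one_le_rpow hm (by norm_num)
  have hwa : w = a * M := by
    rw [hwdef, hadef]
    calc (M : ℝ) ^ (9 / 8 : ℝ) = (M : ℝ) ^ (1 / 8 + 1 : ℝ) := by norm_num
      _ = (M : ℝ) ^ (1 / 8 : ℝ) * (M : ℝ) ^ (1 : ℝ) := Real.rpow_add hm0 _ _
      _ = _ := by rw [Real.rpow_one]
  have hw : 1 ≤ w := Real.one_le_rpow hm (by norm_num)
  -- the hypothesis
  have hroot : 8388608 * C0 * (a * l ^ 5) ≤ √(n : ℝ) := by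
    have e1 : 0 ≤ (M : ℝ) / (n : ℝ) ^ (5 / 2 : ℝ) := by positivity
    have e2 : 8388608 * C0 * ((a / √(n : ℝ)) * l ^ 5) ≤
        8388608 * C0 * ((a / √(n : ℝ) + M / (n : ℝ) ^ (5 / 2 : ℝ)) * l ^ 5) := by
      apply mul_le_mul_of_nonneg_left _ (by linarith)
      apply mul_le_mul_of_nonneg_right _ (by positivity)
      linarith
    have e3 : 8388608 * C0 * ((a / √(n : ℝ)) * l ^ 5) ≤ 1 := e2.trans hhyp
    have e4 : 8388608 * C0 * ((a / √(n : ℝ)) * l ^ 5) = 8388608 * C0 * (a * l ^ 5) / √(n : ℝ) := by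
      ring
    rw [e4, div_le_one hs0] at e3
    exact e3
  have hC3 : 8388608 * C0 * l ^ 3 ≤ √(n : ℝ) := by
    refine le_trans ?_ hroot
    apply mul_le_mul_of_nonneg_left _ (by linarith)
    calc l ^ 3 = 1 * l ^ 3 := by ring
      _ ≤ a * l ^ 5 := mul_le_mul ha hl5 (by positivity) (by linarith)
  have hCa : 8388608 * C0 * (a * l ^ 3) ≤ √(n : ℝ) := by
    refine le_trans ?_ hroot
    apply mul_le_mul_of_nonneg_left _ (by linarith)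
    exact mul_le_mul_of_nonneg_left hl5 (by linarith)
  have hbig : 8388608 ≤ √(n : ℝ) := by
    refine le_trans ?_ hC3
    nlinarith
  have hsn : √(n : ℝ) ≤ n := by nlinarith
  -- a window estimate for all degrees that are at least `M √n / 16`
  have hdeg : (M : ℝ) * √(n : ℝ) ≤ 16 * d := by
    by_contra hlt
    push Not at hlt
    set D := ⌈(M : ℝ) * √(n : ℝ) / 16⌉₊ with hDdef
    have hD1 : (M : ℝ) * √(n : ℝ) / 16 ≤ D := Nat.le_ceil _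
    have hD2 : (D : ℝ) < (M : ℝ) * √(n : ℝ) / 16 + 1 := Nat.ceil_lt_add_one (by positivity)
    have hdD : d ≤ D := by
      have : (d : ℝ) ≤ D := by linarith
      exact_mod_cast this
    have hMs : 8388608 ≤ (M : ℝ) * √(n : ℝ) := by nlinarith
    have hv1 := sd_two_vd (e := D) μ
    have hv2 := sd_cs μ hn hsum
    have hv3 : ((D : ℝ) + 2) ^ 2 ≤ (n : ℝ) * (M : ℝ) ^ 2 / 64 := by
      have e1 : (D : ℝ) + 2 ≤ (M : ℝ) * √(n : ℝ) / 8 := by linarith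
      have e2 : ((D : ℝ) + 2) ^ 2 ≤ ((M : ℝ) * √(n : ℝ) / 8) ^ 2 :=
        pow_le_pow_left₀ (by positivity) e1 2
      calc ((D : ℝ) + 2) ^ 2 ≤ ((M : ℝ) * √(n : ℝ) / 8) ^ 2 := e2
        _ = (√(n : ℝ) ^ 2) * (M : ℝ) ^ 2 / 64 := by ring
        _ = _ := by rw [hss]
    have hv4 : ((vd D μ : ℤ) : ℝ) ≤ -((n : ℝ) * (M : ℝ) ^ 2 / 64) := by
      have : 0 ≤ (n : ℝ) * (M : ℝ) ^ 2 := by positivity
      linarith
    have hwD := sd_win (M := (M : ℝ)) (n := (n : ℝ)) (d := (D : ℝ)) hm hn1 (by linarith)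
    -- first summand
    have hw1 : C0 * w * l ^ 3 ≤ (n : ℝ) * (M : ℝ) ^ 2 / 128 := by
      have e1 : 128 * (C0 * (a * l ^ 3)) ≤ √(n : ℝ) := by
        refine le_trans ?_ hCa
        have : 0 ≤ C0 * (a * l ^ 3) := by positivity
        linarith
      have e2 : 128 * (C0 * (a * l ^ 3)) ≤ n := e1.trans hsn
      have e3 : 128 * (C0 * (a * l ^ 3)) * (M : ℝ) ≤ (n : ℝ) * (M : ℝ) ^ 2 := by
        have e4 : (M : ℝ) ≤ (M : ℝ) ^ 2 := by nlinarith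
        exact mul_le_mul e2 e4 (by linarith) (by linarith)
      rw [hwa]
      linarith
    -- second summand
    have hw2 : C0 * (65536 * ((M : ℝ) ^ 2 / (n : ℝ) ^ 2)) * l ^ 3 ≤ (n : ℝ) * (M : ℝ) ^ 2 / 128 := by
      have e1 : 8388608 * C0 * l ^ 3 ≤ n := hC3.trans hsn
      have e2 : (n : ℝ) ≤ (n : ℝ) ^ 3 := by
        have := pow_le_pow_right₀ hn1 (show 1 ≤ 3 by norm_num)
        simpa using this
      have e3 : 8388608 * C0 * l ^ 3 ≤ (n : ℝ) ^ 3 := e1.trans e2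
      have e4 : C0 * (65536 * ((M : ℝ) ^ 2 / (n : ℝ) ^ 2)) * l ^ 3 =
          (8388608 * C0 * l ^ 3) * ((M : ℝ) ^ 2 / (128 * (n : ℝ) ^ 2)) := by
        field_simp
        ring
      rw [e4]
      calc (8388608 * C0 * l ^ 3) * ((M : ℝ) ^ 2 / (128 * (n : ℝ) ^ 2)) ≤
            (n : ℝ) ^ 3 * ((M : ℝ) ^ 2 / (128 * (n : ℝ) ^ 2)) :=
            mul_le_mul_of_nonneg_right e3 (by positivity)
        _ = _ := by field_simp
    have hw3 : C0 * (w + (M : ℝ) ^ 6 / ((D : ℝ) + 1) ^ 4) * l ^ 3 ≤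
        (n : ℝ) * (M : ℝ) ^ 2 / 64 := by
      have e1 : C0 * (w + (M : ℝ) ^ 6 / ((D : ℝ) + 1) ^ 4) * l ^ 3 ≤
          C0 * (w + 65536 * ((M : ℝ) ^ 2 / (n : ℝ) ^ 2)) * l ^ 3 := by
        apply mul_le_mul_of_nonneg_right _ (by positivity)
        apply mul_le_mul_of_nonneg_left _ (by linarith)
        linarith
      have e2 : C0 * (w + 65536 * ((M : ℝ) ^ 2 / (n : ℝ) ^ 2)) * l ^ 3 =
          C0 * w * l ^ 3 + C0 * (65536 * ((M : ℝ) ^ 2 / (n : ℝ) ^ 2)) * l ^ 3 := by ring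
      linarith
    have hpos : 0 ≤ (n : ℝ) * (M : ℝ) ^ 2 / 64 := by positivity
    have hG := h0 n D M μ hM hμ (by
      rw [abs_of_nonpos (by linarith)]
      linarith)
    have hve : vd D μ ≤ 0 := by
      have : ((vd D μ : ℤ) : ℝ) ≤ 0 := by linarith
      exact_mod_cast this
    have hvd : vd d μ ≤ 0 := (sd_vd_le hdD μ).trans hve
    apply hsp
    refine hG.mono ?_
    intro P hP
    rw [max_eq_right hve] at hP
    rw [max_eq_right hvd]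
    have h2 := deg_mono hdD μ P
    have h3 : Module.finrank ℂ (curves D μ P) = 0 := by exact_mod_cast hP
    have h4 : Module.finrank ℂ (curves d μ P) = 0 := by omega
    exact_mod_cast h4
  refine ⟨hdeg, ?_, ?_⟩
  · by_contra hge
    push Not at hge
    refine hsp (h0 n d M μ hM hμ (le_trans ?_ hge))
    have hwd := sd_win (M := (M : ℝ)) (n := (n : ℝ)) (d := (d : ℝ)) hm hn1 (by linarith)
    apply mul_le_mul_of_nonneg_right _ (by positivity)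
    have e1 : C0 * (w + (M : ℝ) ^ 6 / ((d : ℝ) + 1) ^ 4) ≤
        C0 * (w + 65536 * ((M : ℝ) ^ 2 / (n : ℝ) ^ 2)) := by
      apply mul_le_mul_of_nonneg_left _ (by linarith)
      linarith
    have e2 : w + 65536 * ((M : ℝ) ^ 2 / (n : ℝ) ^ 2) ≤
        8388608 * (w + (M : ℝ) ^ 2 / (n : ℝ) ^ 2) := by
      have : 0 ≤ (M : ℝ) ^ 2 / (n : ℝ) ^ 2 := by positivity
      linarith
    calc C0 * (w + (M : ℝ) ^ 6 / ((d : ℝ) + 1) ^ 4) ≤
          C0 * (w + 65536 * ((M : ℝ) ^ 2 / (n : ℝ) ^ 2)) := e1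
      _ ≤ C0 * (8388608 * (w + (M : ℝ) ^ 2 / (n : ℝ) ^ 2)) :=
          mul_le_mul_of_nonneg_left e2 (by linarith)
      _ = _ := by ring
  · by_contra hge
    push Not at hge
    exact hsp (exact_u hM hμ hge)

end Pool.Agent.Lib.MP_6b2d39_agUa
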