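import Pool.Agent.Lib.MP_6b2d39_agUa.Cheb
import Pool.Agent.Lib.MP_6b2d39_agUa.Band
import Pool.Agent.Lib.MP_6b2d39_agUa.Fib
import Pool.Agent.Lib.MP_6b2d39_agUa.Spec
import Pool.Agent.Lib.MP_6b2d39_agUa.NumA

set_option autoImplicit false

namespace Pool.Agent.Lib.MP_6b2d39_agUa

open Pool.Agent.Lib.MP_6b2d39_agUn Pool.Agent.Lib.MP_6b2d39_agCr

/-- `1 / n` is at most `√ r` -/
private theorem inv_le_sqrt {n M : ℕ} (hn : 1 ≤ n) (hM : 1 ≤ M) :
    1 / (n : ℝ) ≤ √(((M : ℝ) ^ (1 / 8 : ℝ) / √(n : ℝ) + M / (n : ℝ) ^ (5 / 2 : ℝ)) *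
        Real.log (M + 2) ^ 5) := by
  have hn' : (1 : ℝ) ≤ n := by exact_mod_cast hn
  have hM' : (1 : ℝ) ≤ M := by exact_mod_cast hM
  have hl : (1 : ℝ) ≤ Real.log ((M : ℝ) + 2) := by
    have h1 : Real.exp 1 ≤ (M : ℝ) + 2 := by
      have := Real.exp_one_lt_d9
      linarith
    have h2 := Real.log_le_log (Real.exp_pos 1) h1
    rwa [Real.log_exp] at h2
  have hp : (1 : ℝ) ≤ (M : ℝ) ^ (1 / 8 : ℝ) := Real.one_le_rpow hM' (by norm_num)
  have hs0 : 0 < √(n : ℝ) := Real.sqrt_pos.mpr (by linarith)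
  have hs1 : √(n : ℝ) ≤ (n : ℝ) ^ 2 := by
    have h1 : √(n : ℝ) ≤ n := by
      rw [Real.sqrt_le_left (by linarith)]
      nlinarith
    nlinarith
  refine Real.le_sqrt_of_sq_le ?_
  have h3 : (1 / (n : ℝ)) ^ 2 ≤ 1 / √(n : ℝ) := by
    rw [div_pow, one_pow]
    exact one_div_le_one_div_of_le hs0 hs1
  have h4 : 1 / √(n : ℝ) ≤ (M : ℝ) ^ (1 / 8 : ℝ) / √(n : ℝ) :=
    div_le_div_of_nonneg_right hp hs0.le
  have h5 : 0 ≤ (M : ℝ) / (n : ℝ) ^ (5 / 2 : ℝ) := by positivity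
  have h6 : (1 : ℝ) ≤ Real.log ((M : ℝ) + 2) ^ 5 := one_le_pow₀ hl
  have h7 : 0 ≤ (M : ℝ) ^ (1 / 8 : ℝ) / √(n : ℝ) := by positivity
  calc (1 / (n : ℝ)) ^ 2 ≤ (M : ℝ) ^ (1 / 8 : ℝ) / √(n : ℝ) + M / (n : ℝ) ^ (5 / 2 : ℝ) := by
        linarith
    _ = ((M : ℝ) ^ (1 / 8 : ℝ) / √(n : ℝ) + M / (n : ℝ) ^ (5 / 2 : ℝ)) * 1 := by ring
    _ ≤ _ := mul_le_mul_of_nonneg_left h6 (by linarith)

/-- the bad vectors with a large sum, one fibre -/
private theorem fibre_le {k M D w a0 : ℕ} (hD : 1 ≤ D) (ha0 : 1 ≤ a0)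
    (Q : (Fin (k + 1) → Fin (M + 1)) → Prop) [DecidablePred Q]
    (hQ : ∀ μ, Q μ → ∃ d : ℕ, D ≤ d ∧ |vd d (fun i => (μ i : ℕ))| ≤ w)
    (ν : Fin k → Fin (M + 1)) :
    (Finset.univ.filter fun a : Fin (M + 1) => Q (Fin.cons a ν)).card ≤
      a0 + ((M * (M + 1) / 2 + 2 * w) / D + 1) * (2 * w / a0 + 1) := by
  classical
  set A : ℕ := ∑ i, ((ν i : ℕ) + 1).choose 2 with hA
  have h1 := count_a A M D w a0 hD ha0
    (fun a => ∃ d, D ≤ d ∧
      |(((d + 2).choose 2 : ℕ) : ℤ) - A - (((a + 1).choose 2 : ℕ) : ℤ)| ≤ w) (fun a h => h)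
  refine le_trans ?_ h1
  refine Finset.card_le_card_of_injOn (fun a => (a : ℕ)) ?_ ?_
  · intro a ha
    simp only [Finset.coe_filter, Finset.mem_univ, true_and, Set.mem_ofPred_eq] at ha
    obtain ⟨d, hd, hv⟩ := hQ _ ha
    simp only [Finset.coe_filter, Finset.mem_range, Set.mem_ofPred_eq]
    refine ⟨a.2, d, hd, ?_⟩
    have h2 : vd d (fun i => ((Fin.cons a ν : Fin (k + 1) → Fin (M + 1)) i : ℕ)) =
        (((d + 2).choose 2 : ℕ) : ℤ) - A - ((((a : ℕ) + 1).choose 2 : ℕ) : ℤ) := by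
      unfold vd
      rw [Fin.sum_univ_succ]
      simp only [Fin.cons_zero, Fin.cons_succ]
      rw [hA]
      push_cast
      ring
    rw [← h2]
    exact hv
  · intro a _ b _ hab
    exact Fin.ext hab

/-- UA9 (ALMOST ALL VECTORS). `r` as in `num_a`. If `C r > 1` the right side is at least
`(M + 1)^n` (`√ r ≥ 1 / √ C`, take the constant at least the square). Otherwise `ncard_le`, and the
bad vectors satisfy `4 ∑ μ i < n M` (`cheb`: at most `4/n (M+1)^n`, `1/n ≤ √r`) or (`spec_d`) have a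
`d ≥ D` with `|vd| ≤ w` (if `n > 65536 M` this is impossible by the first and third claims of
`spec_d`); `card_fiber` with `n = k + 1`, `count_a` with `A = ∑ i, (ν i + 1).choose 2`, `num_a`. -/
theorem almost_all : ∃ C : ℝ, 1 ≤ C ∧ ∀ n M : ℕ, 1 ≤ n → 1 ≤ M →
    (({μ : Fin n → ℕ | (∀ i, μ i ≤ M) ∧ ∃ d : ℕ, ¬ General (fun P =>
      (Module.finrank ℂ (curves d μ P) : ℤ) = max (vd d μ) 0)}.ncard : ℕ) : ℝ) ≤
      C * √(((M : ℝ) ^ (1 / 8 : ℝ) / √(n : ℝ) + M / (n : ℝ) ^ (5 / 2 : ℝ)) *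
        Real.log (M + 2) ^ 5) * (M + 1) ^ n := by
  classical
  obtain ⟨Cs, hCs1, hCs⟩ := spec_d
  obtain ⟨Cn, hCn1, hCn⟩ := num_a Cs hCs1
  set K : ℝ := max Cs Cn with hK
  have hK1 : 1 ≤ K := le_trans hCs1 (le_max_left _ _)
  refine ⟨K + 4, by linarith, fun n M hn hM => ?_⟩
  have hn' : (1 : ℝ) ≤ n := by exact_mod_cast hn
  have hM' : (1 : ℝ) ≤ M := by exact_mod_cast hM
  have hinv := inv_le_sqrt hn hM
  set r : ℝ := ((M : ℝ) ^ (1 / 8 : ℝ) / √(n : ℝ) + M / (n : ℝ) ^ (5 / 2 : ℝ)) *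
        Real.log (M + 2) ^ 5 with hr
  have hr0 : 0 ≤ r := by
    by_contra h
    have h1 : √r = 0 := Real.sqrt_eq_zero_of_nonpos (by linarith)
    rw [h1] at hinv
    have h2 : 0 < 1 / (n : ℝ) := by positivity
    linarith
  have hs0 : 0 ≤ √r := Real.sqrt_nonneg r
  have hMn : (0 : ℝ) < ((M : ℝ) + 1) ^ n := by positivity
  refine le_trans (Nat.cast_le.mpr (ncard_le (n := n) (M := M) (fun μ => ∃ d : ℕ,
    ¬ General (fun P => (Module.finrank ℂ (curves d μ P) : ℤ) = max (vd d μ) 0)))) ?_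
  rcases lt_or_ge 1 (K * r) with hKr | hKr
  · have h1 : 1 ≤ (K + 4) * √r := by
      have h2 : 1 ≤ √(K * r) := by
        rw [show (1 : ℝ) = √1 from Real.sqrt_one.symm]
        exact Real.sqrt_le_sqrt hKr.le
      have h3 : √(K * r) = √K * √r := Real.sqrt_mul (by linarith) r
      have h4 : √K ≤ K + 4 := by
        have h5 : √K ≤ K := by
          rw [Real.sqrt_le_left (by linarith)]
          nlinarith
        linarith
      rw [h3] at h2
      exact le_trans h2 (mul_le_mul_of_nonneg_right h4 hs0)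
    have h6 : ((Finset.univ.filter fun μ : Fin n → Fin (M + 1) => ∃ d : ℕ,
        ¬ General (fun P => (Module.finrank ℂ (curves d (fun i => (μ i : ℕ)) P) : ℤ) =
          max (vd d (fun i => (μ i : ℕ))) 0)).card : ℝ) ≤ ((M : ℝ) + 1) ^ n := by
      have h7 := Finset.card_filter_le (Finset.univ : Finset (Fin n → Fin (M + 1)))
        (fun μ => ∃ d : ℕ, ¬ General (fun P =>
          (Module.finrank ℂ (curves d (fun i => (μ i : ℕ)) P) : ℤ) =
            max (vd d (fun i => (μ i : ℕ))) 0))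
      have h8 : (Finset.univ : Finset (Fin n → Fin (M + 1))).card = (M + 1) ^ n := by
        simp
      rw [h8] at h7
      exact_mod_cast h7
    refine le_trans h6 ?_
    nlinarith
  · have hCsr : Cs * r ≤ 1 :=
      le_trans (mul_le_mul_of_nonneg_right (le_max_left _ _) hr0) hKr
    have hCnr : Cn * r ≤ 1 :=
      le_trans (mul_le_mul_of_nonneg_right (le_max_right _ _) hr0) hKr
    set B1 : Finset (Fin n → Fin (M + 1)) :=
      Finset.univ.filter fun μ => 4 * ∑ i, (μ i : ℕ) < n * M with hB1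
    set B2 : Finset (Fin n → Fin (M + 1)) :=
      Finset.univ.filter fun μ => n * M ≤ 4 * ∑ i, (μ i : ℕ) ∧ ∃ d : ℕ,
        ¬ General (fun P => (Module.finrank ℂ (curves d (fun i => (μ i : ℕ)) P) : ℤ) =
          max (vd d (fun i => (μ i : ℕ))) 0) with hB2
    have h1 : ((Finset.univ.filter fun μ : Fin n → Fin (M + 1) => ∃ d : ℕ,
        ¬ General (fun P => (Module.finrank ℂ (curves d (fun i => (μ i : ℕ)) P) : ℤ) =
          max (vd d (fun i => (μ i : ℕ))) 0)).card : ℝ) ≤ (B1.card : ℝ) + B2.card := by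
      have h2 : (Finset.univ.filter fun μ : Fin n → Fin (M + 1) => ∃ d : ℕ,
        ¬ General (fun P => (Module.finrank ℂ (curves d (fun i => (μ i : ℕ)) P) : ℤ) =
          max (vd d (fun i => (μ i : ℕ))) 0)) ⊆ B1 ∪ B2 := by
        intro μ hμ
        simp only [Finset.mem_filter, Finset.mem_univ, true_and] at hμ
        rw [Finset.mem_union, hB1, hB2]
        simp only [Finset.mem_filter, Finset.mem_univ, true_and]
        rcases lt_or_ge (4 * ∑ i, (μ i : ℕ)) (n * M) with h | h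
        · exact Or.inl h
        · exact Or.inr ⟨h, hμ⟩
      have h3 := (Finset.card_le_card h2).trans (Finset.card_union_le B1 B2)
      exact_mod_cast h3
    refine le_trans h1 ?_
    have hb1 : (B1.card : ℝ) ≤ 4 * √r * ((M : ℝ) + 1) ^ n := by
      have h2 := cheb n M hn hM
      have h3 : (n : ℝ) * B1.card ≤ 4 * ((M : ℝ) + 1) ^ n := by exact_mod_cast h2
      have h4 : (B1.card : ℝ) = (1 / (n : ℝ)) * (n * B1.card) := by
        field_simp
      have h5 : (B1.card : ℝ) ≤ (1 / (n : ℝ)) * (4 * ((M : ℝ) + 1) ^ n) := by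
        rw [h4]
        exact mul_le_mul_of_nonneg_left h3 (by positivity)
      have h6 : (1 / (n : ℝ)) * (4 * ((M : ℝ) + 1) ^ n) ≤ √r * (4 * ((M : ℝ) + 1) ^ n) :=
        mul_le_mul_of_nonneg_right hinv (by positivity)
      linarith
    have hb2 : (B2.card : ℝ) ≤ K * √r * ((M : ℝ) + 1) ^ n := by
      have hspec : ∀ μ : Fin n → Fin (M + 1), μ ∈ B2 → ∃ d : ℕ,
          (M : ℝ) * √(n : ℝ) ≤ 16 * d ∧
          |((vd d (fun i => (μ i : ℕ)) : ℤ) : ℝ)| < Cs * ((M : ℝ) ^ (9 / 8 : ℝ) +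
            (M : ℝ) ^ 2 / (n : ℝ) ^ 2) * Real.log (M + 2) ^ 3 ∧
          (d : ℝ) + 1 < 16 * M * √(M : ℝ) := by
        intro μ hμ
        rw [hB2] at hμ
        simp only [Finset.mem_filter, Finset.mem_univ, true_and] at hμ
        obtain ⟨h2, d, hd⟩ := hμ
        exact ⟨d, hCs n M (fun i => (μ i : ℕ)) hn hM (fun i => Nat.lt_succ_iff.mp (μ i).2) h2
          hCsr d hd⟩
      rcases le_or_gt n (65536 * M) with hnM | hnM
      · obtain ⟨D, w, a0, hD, ha0, hDn, hw, hc⟩ := hCn n M hn hM hCnr hnM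
        obtain ⟨k, rfl⟩ : ∃ k, n = k + 1 := ⟨n - 1, by omega⟩
        have hQ : ∀ μ, μ ∈ B2 → ∃ d : ℕ, D ≤ d ∧ |vd d (fun i => (μ i : ℕ))| ≤ w := by
          intro μ hμ
          obtain ⟨d, h2, h3, _⟩ := hspec μ hμ
          refine ⟨d, ?_, ?_⟩
          · have h4 : (D : ℝ) < d + 1 := by linarith
            have h5 : D < d + 1 := by exact_mod_cast h4
            omega
          · have h4 : |((vd d (fun i => (μ i : ℕ)) : ℤ) : ℝ)| ≤ w := (h3.trans_le hw).le
            rw [← Int.cast_abs] at h4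
            exact_mod_cast h4
        have h2 := card_fiber (n := k) (M := M) (fun μ => μ ∈ B2)
          (fun ν => fibre_le (w := w) hD ha0 (fun μ => μ ∈ B2) hQ ν)
        have h3 : (Finset.univ.filter fun μ => μ ∈ B2) = B2 := by
          ext μ
          simp
        rw [h3] at h2
        have h4 : (B2.card : ℝ) ≤
            ((a0 + ((M * (M + 1) / 2 + 2 * w) / D + 1) * (2 * w / a0 + 1) : ℕ) : ℝ) *
              ((M : ℝ) + 1) ^ k := by
          exact_mod_cast h2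
        have h5 : (0 : ℝ) ≤ ((M : ℝ) + 1) ^ k := by positivity
        refine h4.trans ((mul_le_mul_of_nonneg_right hc h5).trans ?_)
        have h6 : Cn * √r * ((M : ℝ) + 1) * ((M : ℝ) + 1) ^ k =
            Cn * (√r * ((M : ℝ) + 1) ^ (k + 1)) := by ring
        have h7 : K * √r * ((M : ℝ) + 1) ^ (k + 1) = K * (√r * ((M : ℝ) + 1) ^ (k + 1)) := by
          ring
        rw [h6, h7]
        exact mul_le_mul_of_nonneg_right (le_max_right _ _) (by positivity)
      · have h2 : B2 = ∅ := by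
          by_contra hne
          obtain ⟨μ, hμ⟩ := Finset.nonempty_iff_ne_empty.mpr hne
          obtain ⟨d, h2, _, h3⟩ := hspec μ hμ
          have h4 : (M : ℝ) * √(n : ℝ) < M * (256 * √(M : ℝ)) := by linarith
          have h5 : √(n : ℝ) < 256 * √(M : ℝ) := lt_of_mul_lt_mul_left h4 (by linarith)
          have h6 : √(n : ℝ) ^ 2 < (256 * √(M : ℝ)) ^ 2 :=
            pow_lt_pow_left₀ h5 (Real.sqrt_nonneg _) (by norm_num)
          rw [mul_pow, Real.sq_sqrt (by linarith), Real.sq_sqrt (by linarith)] at h6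
          have h7 : (65536 * M : ℝ) < n := by exact_mod_cast hnM
          linarith
        rw [h2]
        simp only [Finset.card_empty, Nat.cast_zero]
        positivity
    calc (B1.card : ℝ) + B2.card ≤ 4 * √r * ((M : ℝ) + 1) ^ n + K * √r * ((M : ℝ) + 1) ^ n :=
          add_le_add hb1 hb2
      _ = (K + 4) * √r * ((M : ℝ) + 1) ^ n := by ring

end Pool.Agent.Lib.MP_6b2d39_agUa
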