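import Mathlib

set_option autoImplicit false

namespace Pool.Agent.Lib.MP_6b2d39_agUa

private theorem cheb_x1 (c : ℤ) (k : ℕ) :
    ∑ i ∈ Finset.range k, (2 * (i : ℤ) - c) = k * (k - 1) - k * c := by
  induction k with
  | zero => simp
  | succ k ih =>
    rw [Finset.sum_range_succ, ih]
    push_cast
    ring

private theorem cheb_x2 (c : ℤ) (k : ℕ) :
    3 * ∑ i ∈ Finset.range k, (2 * (i : ℤ) - c) ^ 2 =
      2 * (k - 1) * k * (2 * k - 1) - 6 * c * k * (k - 1) + 3 * k * c ^ 2 := by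
  induction k with
  | zero => simp
  | succ k ih =>
    rw [Finset.sum_range_succ, mul_add, ih]
    push_cast
    ring

private theorem cheb_s1 (M : ℕ) :
    ∑ a : Fin (M + 1), (2 * ((a : ℕ) : ℤ) - M) = 0 := by
  rw [Fin.sum_univ_eq_sum_range (fun i => 2 * (i : ℤ) - M) (M + 1), cheb_x1]
  push_cast
  ring

private theorem cheb_s2 (M : ℕ) :
    3 * ∑ a : Fin (M + 1), (2 * ((a : ℕ) : ℤ) - M) ^ 2 =
      ((M : ℤ) + 1) * ((M : ℤ) * ((M : ℤ) + 2)) := by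
  rw [Fin.sum_univ_eq_sum_range (fun i => (2 * (i : ℤ) - M) ^ 2) (M + 1), cheb_x2]
  push_cast
  ring

private theorem cheb_cons {β : Type} [AddCommMonoid β] (n M : ℕ)
    (F : (Fin (n + 1) → Fin (M + 1)) → β) :
    ∑ μ : Fin (n + 1) → Fin (M + 1), F μ =
      ∑ a : Fin (M + 1), ∑ μ : Fin n → Fin (M + 1), F (Fin.cons a μ) := by
  rw [← Fintype.sum_prod_type']
  exact (Fintype.sum_equiv (Fin.consEquiv (fun _ => Fin (M + 1)))
    (fun p => F (Fin.cons p.1 p.2)) F (fun p => rfl)).symm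

private theorem cheb_c (n M : ℕ) (a : Fin (M + 1)) (μ : Fin n → Fin (M + 1)) :
    ∑ i, (2 * (((Fin.cons a μ : Fin (n + 1) → Fin (M + 1)) i : ℕ) : ℤ) - M) =
      (2 * ((a : ℕ) : ℤ) - M) + ∑ i, (2 * ((μ i : ℕ) : ℤ) - M) := by
  rw [Fin.sum_univ_succ]
  simp only [Fin.cons_zero, Fin.cons_succ]

private theorem cheb_m1 (n M : ℕ) :
    ∑ μ : Fin n → Fin (M + 1), ∑ i, (2 * ((μ i : ℕ) : ℤ) - M) = 0 := by
  induction n with
  | zero => simp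
  | succ n ih =>
    rw [cheb_cons]
    simp only [cheb_c, Finset.sum_add_distrib, ih]
    simp only [Finset.sum_const, Finset.card_univ, smul_zero, add_zero]
    rw [← Finset.smul_sum, cheb_s1, smul_zero]

/-- UA1 (second moment). Induction on `n` with `Fin.consEquiv` / `Fin.cons`: with
`x a = 2 a - M`, `∑ a, x a = 0`, `3 ∑ a, x a ^ 2 = (M + 1) M (M + 2)`:
`∑_(a, μ) (x a + S μ)^2 = (M + 1)^n ∑ x a ^ 2 + (M + 1) ∑_μ (S μ)^2`. -/
theorem cheb_sum (n M : ℕ) :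
    3 * ∑ μ : Fin n → Fin (M + 1), (∑ i, (2 * ((μ i : ℕ) : ℤ) - M)) ^ 2 =
      n * (M + 1) ^ n * (M * (M + 2)) := by
  induction n with
  | zero => simp
  | succ n ih =>
    rw [cheb_cons]
    simp only [cheb_c]
    have h1 : ∀ a : Fin (M + 1),
        ∑ μ : Fin n → Fin (M + 1),
          ((2 * ((a : ℕ) : ℤ) - M) + ∑ i, (2 * ((μ i : ℕ) : ℤ) - M)) ^ 2 =
        (M + 1) ^ n * (2 * ((a : ℕ) : ℤ) - M) ^ 2 +
          ∑ μ : Fin n → Fin (M + 1), (∑ i, (2 * ((μ i : ℕ) : ℤ) - M)) ^ 2 := by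
      intro a
      have h2 : ∀ μ : Fin n → Fin (M + 1),
          ((2 * ((a : ℕ) : ℤ) - M) + ∑ i, (2 * ((μ i : ℕ) : ℤ) - M)) ^ 2 =
          (2 * ((a : ℕ) : ℤ) - M) ^ 2 +
            (2 * (2 * ((a : ℕ) : ℤ) - M)) * (∑ i, (2 * ((μ i : ℕ) : ℤ) - M)) +
            (∑ i, (2 * ((μ i : ℕ) : ℤ) - M)) ^ 2 := fun μ => by ring
      simp only [h2, Finset.sum_add_distrib]
      rw [← Finset.mul_sum, cheb_m1, mul_zero, add_zero, Finset.sum_const, Finset.card_univ]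
      simp
    simp only [h1, Finset.sum_add_distrib]
    rw [← Finset.mul_sum, Finset.sum_const, Finset.card_univ, Fintype.card_fin, mul_add]
    have h3 := cheb_s2 M
    have h4 : (3 : ℤ) * (((M : ℤ) + 1) ^ n * ∑ a : Fin (M + 1), (2 * ((a : ℕ) : ℤ) - M) ^ 2) =
        ((M : ℤ) + 1) ^ n * (((M : ℤ) + 1) * ((M : ℤ) * ((M : ℤ) + 2))) := by
      rw [← h3]
      ring
    rw [h4, nsmul_eq_mul]
    have h5 : (3 : ℤ) * (((M + 1 : ℕ) : ℤ) *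
        ∑ μ : Fin n → Fin (M + 1), (∑ i, (2 * ((μ i : ℕ) : ℤ) - M)) ^ 2) =
        ((M + 1 : ℕ) : ℤ) * (n * (M + 1) ^ n * (M * (M + 2))) := by
      rw [← ih]
      ring
    rw [h5]
    push_cast
    ring

/-- UA2. If `4 ∑ μ i < n M` then `(∑ (2 μ i - M))^2 > n^2 M^2 / 4`; `cheb_sum`; `M + 2 ≤ 3 M`. -/
theorem cheb (n M : ℕ) (hn : 1 ≤ n) (hM : 1 ≤ M) :
    n * (Finset.univ.filter fun μ : Fin n → Fin (M + 1) => 4 * ∑ i, (μ i : ℕ) < n * M).card ≤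
      4 * (M + 1) ^ n := by
  set A := Finset.univ.filter fun μ : Fin n → Fin (M + 1) => 4 * ∑ i, (μ i : ℕ) < n * M with hA
  have key : ∀ μ ∈ A, ((n : ℤ) * M) ^ 2 ≤ 4 * (∑ i, (2 * ((μ i : ℕ) : ℤ) - M)) ^ 2 := by
    intro μ hμ
    have h1 : 4 * ∑ i, (μ i : ℕ) < n * M := (Finset.mem_filter.mp hμ).2
    have h2 : (4 : ℤ) * ∑ i, ((μ i : ℕ) : ℤ) < n * M := by exact_mod_cast h1
    have h3 : ∑ i, (2 * ((μ i : ℕ) : ℤ) - M) = 2 * ∑ i, ((μ i : ℕ) : ℤ) - n * M := by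
      rw [Finset.sum_sub_distrib, ← Finset.mul_sum]
      simp
    have h0 : (0 : ℤ) ≤ n * M := by positivity
    rw [h3]
    nlinarith
  have hs : ((A.card : ℕ) : ℤ) * ((n : ℤ) * M) ^ 2 ≤
      4 * ∑ μ : Fin n → Fin (M + 1), (∑ i, (2 * ((μ i : ℕ) : ℤ) - M)) ^ 2 := by
    calc ((A.card : ℕ) : ℤ) * ((n : ℤ) * M) ^ 2 = ∑ _μ ∈ A, ((n : ℤ) * M) ^ 2 := by
          rw [Finset.sum_const, nsmul_eq_mul]
      _ ≤ ∑ μ ∈ A, 4 * (∑ i, (2 * ((μ i : ℕ) : ℤ) - M)) ^ 2 := Finset.sum_le_sum key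
      _ ≤ ∑ μ : Fin n → Fin (M + 1), 4 * (∑ i, (2 * ((μ i : ℕ) : ℤ) - M)) ^ 2 :=
          Finset.sum_le_univ_sum_of_nonneg (fun μ => by positivity)
      _ = _ := by rw [← Finset.mul_sum]
  have hc := cheb_sum n M
  have hn' : (1 : ℤ) ≤ n := by exact_mod_cast hn
  have hM' : (1 : ℤ) ≤ M := by exact_mod_cast hM
  have hP : (0 : ℤ) < (M + 1) ^ n := by positivity
  have h6 : (3 : ℤ) * (((A.card : ℕ) : ℤ) * ((n : ℤ) * M) ^ 2) ≤
      4 * (n * (M + 1) ^ n * (M * (M + 2))) := by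
    rw [← hc]
    linarith
  have h7 : ((n : ℤ) * M) * (((A.card : ℕ) : ℤ) * n * M * 3) ≤
      ((n : ℤ) * M) * (4 * (M + 1) ^ n * (M + 2)) := by
    calc ((n : ℤ) * M) * (((A.card : ℕ) : ℤ) * n * M * 3) =
          (3 : ℤ) * (((A.card : ℕ) : ℤ) * ((n : ℤ) * M) ^ 2) := by ring
      _ ≤ _ := h6
      _ = _ := by ring
  have hnM : (0 : ℤ) < (n : ℤ) * M := by positivity
  have h8 : ((A.card : ℕ) : ℤ) * n * M * 3 ≤ 4 * (M + 1) ^ n * (M + 2) :=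
    le_of_mul_le_mul_left h7 hnM
  have h9 : (4 : ℤ) * (M + 1) ^ n * (M + 2) ≤ 4 * (M + 1) ^ n * (3 * M) := by
    apply mul_le_mul_of_nonneg_left _ (by positivity)
    linarith
  have h10 : (3 * (M : ℤ)) * (((A.card : ℕ) : ℤ) * n) ≤ (3 * (M : ℤ)) * (4 * (M + 1) ^ n) := by
    calc (3 * (M : ℤ)) * (((A.card : ℕ) : ℤ) * n) = ((A.card : ℕ) : ℤ) * n * M * 3 := by ring
      _ ≤ 4 * (M + 1) ^ n * (3 * M) := h8.trans h9
      _ = _ := by ring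
  have h11 : ((A.card : ℕ) : ℤ) * n ≤ 4 * (M + 1) ^ n :=
    le_of_mul_le_mul_left h10 (by linarith)
  have h12 : ((n * A.card : ℕ) : ℤ) ≤ ((4 * (M + 1) ^ n : ℕ) : ℤ) := by
    push_cast
    linarith
  exact_mod_cast h12

end Pool.Agent.Lib.MP_6b2d39_agUa
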