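import Pool.Agent.Lib.MP_6b2d39_agUa.Band
import Pool.Agent.Lib.MP_6b2d39_agUa.Spec
import Pool.Agent.Lib.MP_6b2d39_agUa.NumA

set_option autoImplicit false

namespace Pool.Agent.Lib.MP_6b2d39_agUa

open Pool.Agent.Lib.MP_6b2d39_agUn Pool.Agent.Lib.MP_6b2d39_agCr

/-- UA10 (ALL multiplicities but one arbitrary). For every tail `ν` with `∑ ν i ≥ (n + 1) M / 4` and
all first multiplicities `a ≤ M` but a small proportion, the system is nonspecial in every degree. -/
theorem almost_one : ∃ C : ℝ, 1 ≤ C ∧ ∀ (n M : ℕ) (ν : Fin n → ℕ), 1 ≤ M → (∀ i, ν i ≤ M) →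
    (n + 1) * M ≤ 4 * ∑ i, ν i →
    (({a : ℕ | a ≤ M ∧ ∃ d : ℕ, ¬ General (fun P =>
      (Module.finrank ℂ (curves d (Fin.cons a ν : Fin (n + 1) → ℕ) P) : ℤ) =
        max (vd d (Fin.cons a ν : Fin (n + 1) → ℕ)) 0)}.ncard : ℕ) : ℝ) ≤
      C * √(((M : ℝ) ^ (1 / 8 : ℝ) / √((n + 1 : ℕ) : ℝ) +
        M / ((n + 1 : ℕ) : ℝ) ^ (5 / 2 : ℝ)) * Real.log (M + 2) ^ 5) * (M + 1) := by
  obtain ⟨C1, hC1, hspec⟩ := spec_d
  obtain ⟨C2, hC2, hnum⟩ := num_a C1 hC1
  obtain ⟨C, hC⟩ : ∃ C, C = max C1 C2 := ⟨_, rfl⟩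
  have hCC1 : C1 ≤ C := by rw [hC]; exact le_max_left _ _
  have hCC2 : C2 ≤ C := by rw [hC]; exact le_max_right _ _
  refine ⟨C, hC1.trans hCC1, fun n M ν hM hν hsum => ?_⟩
  obtain ⟨r, hr⟩ : ∃ r : ℝ, r = ((M : ℝ) ^ (1 / 8 : ℝ) / √((n + 1 : ℕ) : ℝ) +
        M / ((n + 1 : ℕ) : ℝ) ^ (5 / 2 : ℝ)) * Real.log (M + 2) ^ 5 := ⟨_, rfl⟩
  rw [← hr]
  have hl : 0 ≤ Real.log ((M : ℝ) + 2) := Real.log_nonneg (by
    have : (0 : ℝ) ≤ M := Nat.cast_nonneg M
    linarith)
  have hr0 : 0 ≤ r := by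
    rw [hr]
    positivity
  have hM1 : (0 : ℝ) ≤ (M : ℝ) + 1 := by positivity
  set S : Set ℕ := {a : ℕ | a ≤ M ∧ ∃ d : ℕ, ¬ General (fun P =>
      (Module.finrank ℂ (curves d (Fin.cons a ν : Fin (n + 1) → ℕ) P) : ℤ) =
        max (vd d (Fin.cons a ν : Fin (n + 1) → ℕ)) 0)} with hS
  have hSr : S ⊆ ((Finset.range (M + 1) : Finset ℕ) : Set ℕ) := by
    intro a ha
    rw [Finset.coe_range, Set.mem_Iio]
    have := ha.1
    omega
  have htriv : ((S.ncard : ℕ) : ℝ) ≤ (M : ℝ) + 1 := by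
    have h1 : S.ncard ≤ M + 1 := by
      have := Set.ncard_le_ncard hSr (Finset.finite_toSet _)
      rwa [Set.ncard_coe_finset, Finset.card_range] at this
    exact_mod_cast h1
  rcases lt_or_ge 1 (C * r) with hbig | hsmall
  · -- the right side is at least `M + 1`
    have h1 : 1 ≤ C * √r := by
      have h2 : (1 : ℝ) ^ 2 ≤ (C * √r) ^ 2 := by
        rw [mul_pow, Real.sq_sqrt hr0]
        have h3 : C * r ≤ C ^ 2 * r := by
          have h4 : C ≤ C ^ 2 := by nlinarith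
          exact mul_le_mul_of_nonneg_right h4 hr0
        linarith
      have h3 : 0 ≤ C * √r := mul_nonneg (by linarith) (Real.sqrt_nonneg _)
      exact (sq_le_sq₀ (by norm_num) h3).1 h2
    calc ((S.ncard : ℕ) : ℝ) ≤ 1 * ((M : ℝ) + 1) := by linarith
      _ ≤ C * √r * (M + 1) := mul_le_mul_of_nonneg_right h1 hM1
  · have hsp : ∀ a : ℕ, a ≤ M → ∀ d : ℕ, ¬ General (fun P =>
        (Module.finrank ℂ (curves d (Fin.cons a ν : Fin (n + 1) → ℕ) P) : ℤ) =
          max (vd d (Fin.cons a ν : Fin (n + 1) → ℕ)) 0) →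
        (M : ℝ) * √((n + 1 : ℕ) : ℝ) ≤ 16 * d ∧
          |((vd d (Fin.cons a ν : Fin (n + 1) → ℕ) : ℤ) : ℝ)| <
            C1 * ((M : ℝ) ^ (9 / 8 : ℝ) + (M : ℝ) ^ 2 / ((n + 1 : ℕ) : ℝ) ^ 2) *
              Real.log (M + 2) ^ 3 ∧ (d : ℝ) + 1 < 16 * M * √(M : ℝ) := by
      intro a ha d hd
      refine hspec (n + 1) M (Fin.cons a ν) (by omega) hM (fun i => ?_) ?_ ?_ d hd
      · refine Fin.cases ?_ (fun j => ?_) i
        · simpa using ha
        · simpa using hν j
      · rw [Fin.sum_univ_succ]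
        simp only [Fin.cons_zero, Fin.cons_succ]
        have h5 : (n + 1) * M ≤ 4 * ∑ i, ν i := hsum
        omega
      · rw [← hr]
        exact (mul_le_mul_of_nonneg_right hCC1 hr0).trans hsmall
    have hpos : 0 ≤ C * √r * ((M : ℝ) + 1) :=
      mul_nonneg (mul_nonneg (by linarith) (Real.sqrt_nonneg _)) hM1
    rcases lt_or_ge (65536 * M) (n + 1) with hn | hn
    · -- no special degree
      have hempty : S = ∅ := by
        rw [Set.eq_empty_iff_forall_notMem]
        rintro a ⟨ha, d, hd⟩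
        obtain ⟨h1, -, h3⟩ := hsp a ha d hd
        have hm : (1 : ℝ) ≤ M := by exact_mod_cast hM
        have h4 : (M : ℝ) * √((n + 1 : ℕ) : ℝ) < 256 * (M * √(M : ℝ)) := by linarith
        have h5 : √((n + 1 : ℕ) : ℝ) < 256 * √(M : ℝ) := by
          have h6 : (M : ℝ) * √((n + 1 : ℕ) : ℝ) < M * (256 * √(M : ℝ)) := by linarith
          exact lt_of_mul_lt_mul_left h6 (by linarith)
        have h6 : (65536 : ℝ) * M < ((n + 1 : ℕ) : ℝ) := by exact_mod_cast hn
        have h7 : √(65536 * (M : ℝ)) ≤ √((n + 1 : ℕ) : ℝ) := Real.sqrt_le_sqrt h6.le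
        have h8 : √(65536 * (M : ℝ)) = 256 * √(M : ℝ) := by
          rw [Real.sqrt_mul (by norm_num)]
          congr 1
          rw [show (65536 : ℝ) = 256 ^ 2 by norm_num]
          exact Real.sqrt_sq (by norm_num)
        linarith
      rw [hempty, Set.ncard_empty]
      push_cast
      exact hpos
    · obtain ⟨D, w, a0, hD, ha0, hDr, hw, hcount⟩ := hnum (n + 1) M (by omega) hM
        (by rw [← hr]; exact (mul_le_mul_of_nonneg_right hCC2 hr0).trans hsmall) hn
      rw [← hr] at hcount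
      classical
      obtain ⟨A, hA⟩ : ∃ A : ℕ, A = ∑ i, (ν i + 1).choose 2 := ⟨_, rfl⟩
      have hsub : S ⊆ (((Finset.range (M + 1)).filter fun a => ∃ d, D ≤ d ∧
          |(((d + 2).choose 2 : ℕ) : ℤ) - A - (((a + 1).choose 2 : ℕ) : ℤ)| ≤ w : Finset ℕ) :
            Set ℕ) := by
        rintro a ⟨ha, d, hd⟩
        obtain ⟨h1, h2, -⟩ := hsp a ha d hd
        rw [Finset.coe_filter, Set.mem_setOf_eq, Finset.mem_range]
        refine ⟨by omega, d, ?_, ?_⟩
        · have h3 : (D : ℝ) < d + 1 := by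
            have h4 : (M : ℝ) * √((n + 1 : ℕ) : ℝ) / 16 ≤ d := by
              rw [div_le_iff₀ (by norm_num)]
              linarith
            linarith
          have h4 : D < d + 1 := by exact_mod_cast h3
          omega
        · have h3 : vd d (Fin.cons a ν : Fin (n + 1) → ℕ) =
              (((d + 2).choose 2 : ℕ) : ℤ) - A - (((a + 1).choose 2 : ℕ) : ℤ) := by
            unfold vd
            rw [Fin.sum_univ_succ, hA]
            simp only [Fin.cons_zero, Fin.cons_succ]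
            push_cast
            ring
          rw [h3] at h2
          have h4 := h2.trans_le hw
          rw [← Int.cast_abs] at h4
          have h5 : |(((d + 2).choose 2 : ℕ) : ℤ) - A - (((a + 1).choose 2 : ℕ) : ℤ)| < (w : ℤ) := by
            exact_mod_cast h4
          exact h5.le
      have h1 : S.ncard ≤ a0 + ((M * (M + 1) / 2 + 2 * w) / D + 1) * (2 * w / a0 + 1) := by
        have h2 := Set.ncard_le_ncard hsub (Finset.finite_toSet _)
        rw [Set.ncard_coe_finset] at h2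
        exact h2.trans (count_a A M D w a0 hD ha0 _ fun a h => h)
      have h2 : ((S.ncard : ℕ) : ℝ) ≤
          ((a0 + ((M * (M + 1) / 2 + 2 * w) / D + 1) * (2 * w / a0 + 1) : ℕ) : ℝ) := by
        exact_mod_cast h1
      refine h2.trans (hcount.trans ?_)
      exact mul_le_mul_of_nonneg_right
        (mul_le_mul_of_nonneg_right hCC2 (Real.sqrt_nonneg _)) hM1

end Pool.Agent.Lib.MP_6b2d39_agUa
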